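import Pool.Agent.H39.AE.Fi3

/-!
# MP_1039f5_nt: the triple correlation of the primes for almost all pairs of differences, at almost all scales

* `pc Q d`, `tc Q d' d` (`Pool/Agent/H12/DM/Fin.lean`): the number of `p ∈ Q` with `p - d ∈ Q`, respectively
  with `p - d' ∈ Q` and `p - d ∈ Q`.
* `S2 α τ d = ∑ j, τ j * cos (2π α_j d)`, `S3 α p q d' d = ∑ j, ∑ l, (p j l * cos (2π (α_j d' + α_l d)) + q j l *
  sin (2π (α_j d' + α_l d)))`; `NF Y H δ α`: every `α_j` is `b/Y` with `0 ≤ b < Y` or has distance at least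
  `1/(δ H)` from all `b/Y`, `b ∈ ℤ` (`Pool/Agent/H12/DN/Qh1.lean`).
* `sing H` (`Pool/Agent/H6/MF/Defs.lean`): the singular series of `H`.
-/

set_option autoImplicit false

namespace Pool.Agent.Results.MP_1039f5_nt.AlmostAllPairs

open Pool.Agent.H6.MF Pool.Agent.H12.DM Pool.Agent.H12.DN

/-- For every `ε` there are `m`, `Y` such that, for every `δ`, for every set `Q` of primes `≤ x` and all but `J(ε, δ)` of
the dyadic scales `H = 2^i` between `K(ε, δ) log x` and `(log x)^2` there are at most `m` frequencies, each of the form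
`b/Y` or at distance `≥ 1/(δ H)` from all `b/Y`, a partition `c` of the natural numbers into `m` classes and a matrix `κ`
with entries in `[0, 16]` such that:
(1) the pair correlation is given, in `L¹` mean over the differences `d ≤ H`, by a sum of cosines with nonnegative coefficients;
(2) the triple correlation is given, in `L¹` mean over ALL PAIRS `(d', d)` of distinct differences `≤ H`, by a trigonometric polynomial in
the same frequencies;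
(3) the ratio of the triple correlation to the Hardy-Littlewood prediction for all primes is, in the same `L¹` mean, the step function `κ (c d') (c d)`;
(4) its mean is at least the cube of the relative density of `Q`, up to `ε`;
(5) there are a constant `k` between the cube of the relative density (minus `ε`) and `16` and a product set `B' × B` carrying at least the proportion `1/m`
of the differences such that the ratio is at most `k` for almost all pairs, in `L¹` mean, and equal to `k` up to `ε` in `L¹` mean over `B' × B`;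
(6) if `Q` is the set of all primes `≤ x` then the difference between the pair correlation and the Hardy-Littlewood prediction is also given by a sum of
cosines with nonnegative (and smaller) coefficients. -/
theorem result : ∀ ε : ℝ, 0 < ε → ∃ m Y : ℕ, 1 ≤ Y ∧ ∀ δ : ℝ, 0 < δ → ∃ (J : ℕ) (K X : ℝ), ∀ x : ℝ, X ≤ x →
    ∀ Q : Finset ℕ, (∀ p ∈ Q, p.Prime ∧ (p : ℝ) ≤ x) →
    ∃ bad : Finset ℕ, bad.card ≤ J ∧ ∀ i : ℕ, i ∉ bad → K * Real.log x ≤ ((2 ^ i : ℕ) : ℝ) →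
      ((2 ^ i : ℕ) : ℝ) ≤ (Real.log x) ^ 2 →
    ∃ (n : ℕ) (α τ : Fin n → ℝ) (p q : Fin n → Fin n → ℝ) (c : ℕ → Fin m) (κ : Fin m → Fin m → ℝ), n ≤ m ∧
      (∀ j, 0 ≤ τ j ∧ τ j ≤ m) ∧ (∀ j l, |p j l| ≤ m ∧ |q j l| ≤ m) ∧ (∀ a b, 0 ≤ κ a b ∧ κ a b ≤ 16) ∧ NF Y (2 ^ i) δ α ∧
      (∑ d ∈ Finset.Icc 1 (2 ^ i), |(pc Q d : ℝ) * (Real.log x) ^ 2 / x - S2 α τ d| ≤ ε * ((2 ^ i : ℕ) : ℝ)) ∧
      (∑ d' ∈ Finset.Icc 1 (2 ^ i), ∑ d ∈ (Finset.Icc 1 (2 ^ i)).erase d',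
        |(tc Q d' d : ℝ) * (Real.log x) ^ 3 / x - S3 α p q d' d| ≤ ε * ((2 ^ i : ℕ) : ℝ) ^ 2) ∧
      (∑ d' ∈ Finset.Icc 1 (2 ^ i), ∑ d ∈ (Finset.Icc 1 (2 ^ i)).erase d',
        |(tc Q d' d : ℝ) * (Real.log x) ^ 3 / x - κ (c d') (c d) * sing {0, (d' : ℤ), (d : ℤ)}| ≤ ε * ((2 ^ i : ℕ) : ℝ) ^ 2) ∧
      ((((Q.card : ℝ) * Real.log x / x) ^ 3 - ε) * ((2 ^ i : ℕ) : ℝ) ^ 2 ≤
        ∑ d' ∈ Finset.Icc 1 (2 ^ i), ∑ d ∈ (Finset.Icc 1 (2 ^ i)).erase d', κ (c d') (c d) * sing {0, (d' : ℤ), (d : ℤ)}) ∧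
      (∃ (B' B : Finset ℕ) (k : ℝ), B' ⊆ Finset.Icc 1 (2 ^ i) ∧ B ⊆ Finset.Icc 1 (2 ^ i) ∧
        ((Q.card : ℝ) * Real.log x / x) ^ 3 - ε ≤ k ∧ k ≤ 16 ∧
        (∑ d' ∈ Finset.Icc 1 (2 ^ i), ∑ d ∈ (Finset.Icc 1 (2 ^ i)).erase d',
          max 0 ((tc Q d' d : ℝ) * (Real.log x) ^ 3 / x - k * sing {0, (d' : ℤ), (d : ℤ)}) ≤ ε * ((2 ^ i : ℕ) : ℝ) ^ 2) ∧
        ((2 ^ i : ℕ) : ℝ) ^ 2 ≤ m * ∑ d' ∈ B', ∑ d ∈ B.erase d', sing {0, (d' : ℤ), (d : ℤ)} ∧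
        ∑ d' ∈ B', ∑ d ∈ B.erase d', |(tc Q d' d : ℝ) * (Real.log x) ^ 3 / x - k * sing {0, (d' : ℤ), (d : ℤ)}| ≤
          ε * ∑ d' ∈ B', ∑ d ∈ B.erase d', sing {0, (d' : ℤ), (d : ℤ)}) ∧
      ((∀ p : ℕ, p.Prime → (p : ℝ) ≤ x → p ∈ Q) → ∃ τ' : Fin n → ℝ, (∀ j, 0 ≤ τ' j ∧ τ' j ≤ τ j) ∧
        ∑ d ∈ Finset.Icc 1 (2 ^ i), |(pc Q d : ℝ) * (Real.log x) ^ 2 / x - sing {0, (d : ℤ)} - S2 α τ' d|
          ≤ ε * ((2 ^ i : ℕ) : ℝ)) :=
  Pool.Agent.H39.AE.Fi3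

end Pool.Agent.Results.MP_1039f5_nt.AlmostAllPairs
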