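import Pool.Agent.H6.AE.T1

/-!
# MP_1039f5_nt: almost all prime tuples with differences `≤ H`, at every scale `K log x ≤ H ≤ (log x)^2`

`cnt x B`, `sing B` (`Pool/Agent/H6/MF/Defs.lean`): the number of `0 ≤ n ≤ x` with `n - b` prime for all `b ∈ B`, and the singular series
of `B`. `cntQ x Q B` (`Pool/Agent/H6/AE/T1q.lean`): the number of `0 ≤ n ≤ x` with `n - b ∈ Q` for all `b ∈ B`. `Mm y n`
(`Pool/Agent/H12/DM/Df.lean`): `W / φ(W)` if `n` is coprime to `W`, and `0` otherwise, where `W = WW y` is the product of the primes `≤ y`.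
-/

set_option autoImplicit false

namespace Pool.Agent.Results.MP_1039f5_nt.AlmostAllTuples

open Finset Pool.Agent.H6.MF Pool.Agent.H12.DM Pool.Agent.H6.AE

/-- **Almost all prime tuples.** For every `k ≥ 1` and `ε > 0` there are `y`, `K`, `X` such that for all `x ≥ X` and every set `Q` of primes
`≤ x`, of relative density `r = |Q| log x / x`:
(0) there is ONE function `g` on the integers with values in `[0, 4 + ε]` such that for all scales `K log x ≤ H ≤ (log x)^2` and all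
`1 ≤ j ≤ k` the number of `n` with `n - d ∈ Q` for all `d ∈ {0} ∪ D` is given by the correlation of `g` times the normalised indicator
function of the integers without prime factor `≤ y`, for almost all `D ⊆ [1, H]` with `j` elements (in the `L¹` mean);
(1) for all but `ε H^k` of the `k`-element sets `D ⊆ [1, H]` the number of `n ≤ x` for which all `n - d`, `d ∈ {0} ∪ D`, are prime is at most
`4^k + ε` times its Hardy-Littlewood prediction (or `{0} ∪ D` is not admissible);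
(2) for all `0 ≤ h ≤ 1` the `(k+1)`-element sets `E ⊆ [1, H]` for which at least `(1 - h) r^(k+1)` times the Hardy-Littlewood prediction
of the `n ≤ x` satisfy `n - e ∈ Q` for all `e ∈ E` carry at least the proportion `(h r^(k+1) - ε) / (4^k - (1 - h) r^(k+1))` of the total
singular series `H^(k+1) / (k+1)!`. -/
theorem result : ∀ k : ℕ, 1 ≤ k → ∀ ε : ℝ, 0 < ε → ∃ (y : ℕ) (K X : ℝ), ∀ x : ℝ, X ≤ x →
    ∀ Q : Finset ℕ, (∀ p ∈ Q, p.Prime ∧ (p : ℝ) ≤ x) → ∀ r : ℝ, r = (Q.card : ℝ) * Real.log x / x →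
    (∃ g : ℤ → ℝ, (∀ n, 0 ≤ g n ∧ g n ≤ 4 + ε) ∧
      ∀ H : ℕ, K * Real.log x ≤ (H : ℝ) → (H : ℝ) ≤ (Real.log x) ^ 2 → ∀ j : ℕ, 1 ≤ j → j ≤ k →
        ∑ D ∈ powersetCard j (Icc 1 (H : ℤ)), |(Real.log x) ^ (j + 1) * (cntQ x Q (insert 0 D) : ℝ) / x -
          (∑ n ∈ range (⌊x⌋₊ + 1), ∏ d ∈ insert 0 D, (Mm y ((n : ℤ) - d) * g ((n : ℤ) - d))) / x| ≤ ε * (H : ℝ) ^ j) ∧
    ∀ H : ℕ, K * Real.log x ≤ (H : ℝ) → (H : ℝ) ≤ (Real.log x) ^ 2 →
      (((powersetCard k (Icc 1 (H : ℤ))).filter (fun D => sing (insert 0 D) ≠ 0 ∧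
        (4 ^ k + ε) * (sing (insert 0 D) * x / (Real.log x) ^ (k + 1)) < (cnt x (insert 0 D) : ℝ))).card : ℝ)
          ≤ ε * (H : ℝ) ^ k ∧
      ∀ h : ℝ, 0 ≤ h → h ≤ 1 →
        (h * r ^ (k + 1) - ε) * ((H : ℝ) ^ (k + 1) / ((k + 1).factorial : ℝ)) ≤ (4 ^ k - (1 - h) * r ^ (k + 1)) *
          ∑ E ∈ (powersetCard (k + 1) (Icc 1 (H : ℤ))).filter (fun E =>
            (1 - h) * r ^ (k + 1) * (sing E * x / (Real.log x) ^ (k + 1)) ≤ (cntQ x Q E : ℝ)), sing E :=
  T1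

end Pool.Agent.Results.MP_1039f5_nt.AlmostAllTuples
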