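import Pool.Agent.H6.AS.FNd

/-!
# MP_1039f5_nt: prime tuples in every set of shifts

`pcn x E` (`Pool/Agent/H6/AS/Pcn.lean`) is the number of integers `m` such that `m + e` is a prime `≤ x` for all `e ∈ E`; for
`E = {a, b, c}` with `a < b < c` it is `π₃(x, c - b, c - a)`. `sing E` (`Pool/Agent/H6/MF/Defs.lean`) is the singular series of `E`.
-/

set_option autoImplicit false

namespace Pool.Agent.Results.MP_1039f5_nt.ArbitraryShifts

open Finset Pool.Agent.H6.MF Pool.Agent.H6.AS

/-- **Prime tuples in every set of shifts.**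
(1) For ANY two integers `a ≠ b` in a window `[u, u + (log x)^2]`, all but at most `K log x` of the integers `c` in the window satisfy: the
number of prime triples of shape `{a, b, c}` is at most `16 + ε` times its Hardy-Littlewood prediction (or `{a, b, c}` is not admissible).
Let `A` be ANY set of integers in an interval `(u, u + (log x)^2]`.
(2) If `A` has at least `ε log x` elements (or the triples of elements of `A` have total singular series at least `ε (log x)^3`), then the
number of prime triples with the shapes of the three-element subsets of `A` is at least `κ` times the prediction of the uniform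
Hardy-Littlewood conjecture, and the three-element subsets with at least `κ` times as many prime triples as predicted carry at least the
proportion `κ` of the total singular series; `κ > 0` depends only on `ε`.
(3) If `A` has at least `K log x` elements, `K = K(k, ε)`, then for the `k`-element subsets `E` of `A`: for almost all of them the number of
prime `k`-tuples of shape `E` is at most `4^(k-1)` times the prediction (in the mean, with the singular series as weight); the total number
of prime `k`-tuples is at least `1 - ε` times the prediction; and the `E` with at least `1 - h` times as many prime `k`-tuples as predicted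
carry at least the proportion `(h - ε) / (4^(k-1) - 1 + h)` of the total singular series, for all `0 ≤ h ≤ 1`. -/
theorem result :
    (∀ ε : ℝ, 0 < ε → ∃ K X : ℝ, ∀ x : ℝ, X ≤ x → ∀ u a b : ℤ, u ≤ a → (a : ℝ) ≤ u + (Real.log x) ^ 2 →
      u ≤ b → (b : ℝ) ≤ u + (Real.log x) ^ 2 → a ≠ b →
      (((Icc u (u + ⌊(Real.log x) ^ 2⌋₊)).filter (fun c : ℤ => c ≠ a ∧ c ≠ b ∧ sing {a, b, c} ≠ 0 ∧
        (16 + ε) * (sing {a, b, c} * x / (Real.log x) ^ 3) < (pcn x {a, b, c} : ℝ))).card : ℝ) ≤ K * Real.log x) ∧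
    (∀ ε : ℝ, 0 < ε → ∃ κ X : ℝ, 0 < κ ∧ ∀ x : ℝ, X ≤ x → ∀ u : ℤ, ∀ A : Finset ℤ,
      (∀ a ∈ A, u < a ∧ (a : ℝ) ≤ u + (Real.log x) ^ 2) →
      (ε * (Real.log x) ^ 3 ≤ (A.card : ℝ) ^ 3 ∨ ε * (Real.log x) ^ 3 ≤ ∑ E ∈ powersetCard 3 A, sing E) →
      κ * ∑ E ∈ powersetCard 3 A, sing E ≤ ∑ E ∈ powersetCard 3 A, (Real.log x) ^ 3 * (pcn x E : ℝ) / x ∧
      κ * ∑ E ∈ powersetCard 3 A, sing E ≤
        ∑ E ∈ (powersetCard 3 A).filter (fun E => κ * (sing E * x / (Real.log x) ^ 3) ≤ (pcn x E : ℝ)), sing E) ∧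
    (∀ k : ℕ, 2 ≤ k → ∀ ε : ℝ, 0 < ε → ∃ K X : ℝ, ∀ x : ℝ, X ≤ x → ∀ u : ℤ, ∀ A : Finset ℤ,
      (∀ a ∈ A, u < a ∧ (a : ℝ) ≤ u + (Real.log x) ^ 2) → K * Real.log x ≤ (A.card : ℝ) →
      ∑ E ∈ powersetCard k A, max 0 ((Real.log x) ^ k * (pcn x E : ℝ) / x - 4 ^ (k - 1) * sing E) ≤
        ε * ∑ E ∈ powersetCard k A, sing E ∧
      (1 - ε) * ∑ E ∈ powersetCard k A, sing E ≤ ∑ E ∈ powersetCard k A, (Real.log x) ^ k * (pcn x E : ℝ) / x ∧
      ∀ h : ℝ, 0 ≤ h → h ≤ 1 →
        (h - ε) * ∑ E ∈ powersetCard k A, sing E ≤ (4 ^ (k - 1) - (1 - h)) *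
          ∑ E ∈ (powersetCard k A).filter (fun E => (1 - h) * (sing E * x / (Real.log x) ^ k) ≤ (pcn x E : ℝ)), sing E) := by
  refine ⟨FN_win, ARB1, fun k hk ε hε => ?_⟩
  obtain ⟨j, rfl⟩ : ∃ j, k = j + 1 := ⟨k - 1, by omega⟩
  exact ARB2 j (by omega) ε hε

end Pool.Agent.Results.MP_1039f5_nt.ArbitraryShifts
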